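import Pool.Agent.Helper74.DI.StM

/-!
# Project DI, module INT: the intersection of two languages accepted by automata
-/

set_option autoImplicit false

namespace Pool.Agent.Helper47.DI

open Pool.Agent.Helper74 Pool.Agent.Helper74.DI

section

variable {α Q₁ H₁ Q₂ H₂ : Type}

open Classical in
/-- The combined automaton. -/
noncomputable def dlt (δ₁ : Q₁ → (H₁ → Bool × Option α) → Q₁ × (H₁ → Fin 3))
    (δ₂ : Q₂ → (H₂ → Bool × Option α) → Q₂ × (H₂ → Fin 3)) (acc₁ : Set Q₁) (q₂ : Q₂) :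
    Q₁ ⊕ Q₂ → (H₁ ⊕ H₂ → Bool × Option α) → (Q₁ ⊕ Q₂) × (H₁ ⊕ H₂ → Fin 3)
  | Sum.inl q, rd =>
    if q ∈ acc₁ then (Sum.inr q₂, fun _ => 1)
    else (Sum.inl (δ₁ q (fun h => rd (Sum.inl h))).1,
      Sum.elim (δ₁ q (fun h => rd (Sum.inl h))).2 (fun _ => 1))
  | Sum.inr q, rd =>
    (Sum.inr (δ₂ q (fun h => rd (Sum.inr h))).1,
      Sum.elim (fun _ => 1) (δ₂ q (fun h => rd (Sum.inr h))).2)

/-- A configuration of the first automaton. -/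
def e1 (c : Q₁ × (H₁ → ℕ)) : (Q₁ ⊕ Q₂) × (H₁ ⊕ H₂ → ℕ) :=
  (Sum.inl c.1, Sum.elim c.2 (fun _ => 0))

/-- A configuration of the second automaton. -/
def e2 (p : H₁ → ℕ) (c : Q₂ × (H₂ → ℕ)) : (Q₁ ⊕ Q₂) × (H₁ ⊕ H₂ → ℕ) :=
  (Sum.inr c.1, Sum.elim p c.2)

variable (δ₁ : Q₁ → (H₁ → Bool × Option α) → Q₁ × (H₁ → Fin 3))
  (δ₂ : Q₂ → (H₂ → Bool × Option α) → Q₂ × (H₂ → Fin 3)) (acc₁ : Set Q₁) (q₂ : Q₂)
  (w : List α)

theorem stA (c : Q₁ × (H₁ → ℕ)) (h : c.1 ∉ acc₁) :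
    sth (dlt δ₁ δ₂ acc₁ q₂) w (e1 c) = e1 (sth δ₁ w c) := by
  unfold sth e1 dlt
  refine Prod.ext ?_ ?_
  · simp only [h, if_false]
    rfl
  · funext i
    rcases i with i | i
    · simp only [h, if_false]
      rfl
    · simp [h]

theorem stB (c : Q₁ × (H₁ → ℕ)) (h : c.1 ∈ acc₁) :
    sth (dlt δ₁ δ₂ acc₁ q₂) w (e1 c) = e2 c.2 (q₂, fun _ => 0) := by
  unfold sth e1 dlt e2
  refine Prod.ext ?_ ?_
  · simp [h]
  · funext i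
    rcases i with i | i
    · simp [h]
    · simp [h]

theorem stC (p : H₁ → ℕ) (c : Q₂ × (H₂ → ℕ)) :
    sth (dlt δ₁ δ₂ acc₁ q₂) w (e2 p c) = e2 p (sth δ₂ w c) := by
  unfold sth e2 dlt
  refine Prod.ext ?_ ?_
  · rfl
  · funext i
    rcases i with i | i
    · simp
    · rfl

theorem itA (c : Q₁ × (H₁ → ℕ)) (n : ℕ) (h : ∀ m < n, ((sth δ₁ w)^[m] c).1 ∉ acc₁) :
    (sth (dlt δ₁ δ₂ acc₁ q₂) w)^[n] (e1 c) = e1 ((sth δ₁ w)^[n] c) := by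
  induction n with
  | zero => rfl
  | succ n ih =>
    rw [Function.iterate_succ_apply', Function.iterate_succ_apply',
      ih (fun m hm => h m (Nat.lt_succ_of_lt hm)), stA δ₁ δ₂ acc₁ q₂ w _ (h n (Nat.lt_succ_self n))]

theorem itC (p : H₁ → ℕ) (c : Q₂ × (H₂ → ℕ)) (n : ℕ) :
    (sth (dlt δ₁ δ₂ acc₁ q₂) w)^[n] (e2 p c) = e2 p ((sth δ₂ w)^[n] c) := by
  induction n with
  | zero => rfl
  | succ n ih =>
    rw [Function.iterate_succ_apply', Function.iterate_succ_apply', ih, stC]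

theorem inv (c : Q₁ × (H₁ → ℕ)) (n : ℕ) :
    (sth (dlt δ₁ δ₂ acc₁ q₂) w)^[n] (e1 c) = e1 ((sth δ₁ w)^[n] c) ∨
      ∃ (m k : ℕ) (p : H₁ → ℕ), ((sth δ₁ w)^[m] c).1 ∈ acc₁ ∧
        (sth (dlt δ₁ δ₂ acc₁ q₂) w)^[n] (e1 c) = e2 p ((sth δ₂ w)^[k] (q₂, fun _ => 0)) := by
  induction n with
  | zero => exact Or.inl rfl
  | succ n ih =>
    rcases ih with ih | ⟨m, k, p, hm, ih⟩
    · by_cases h : ((sth δ₁ w)^[n] c).1 ∈ acc₁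
      · refine Or.inr ⟨n, 0, ((sth δ₁ w)^[n] c).2, h, ?_⟩
        rw [Function.iterate_succ_apply', ih, stB δ₁ δ₂ acc₁ q₂ w _ h]
        rfl
      · refine Or.inl ?_
        rw [Function.iterate_succ_apply', ih, stA δ₁ δ₂ acc₁ q₂ w _ h,
          Function.iterate_succ_apply']
    · refine Or.inr ⟨m, k + 1, p, hm, ?_⟩
      rw [Function.iterate_succ_apply', ih, stC, Function.iterate_succ_apply']

end

theorem hINT : StINT := by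
  intro α K₁ K₂ h₁ h₂
  obtain ⟨Q₁, fQ₁, H₁, fH₁, δ₁, q₁, acc₁, hK₁⟩ := h₁
  obtain ⟨Q₂, fQ₂, H₂, fH₂, δ₂, q₂, acc₂, hK₂⟩ := h₂
  refine ⟨Q₁ ⊕ Q₂, inferInstance, H₁ ⊕ H₂, inferInstance, dlt δ₁ δ₂ acc₁ q₂, Sum.inl q₁,
    Sum.inr '' acc₂, ?_⟩
  intro w
  have h0 : ((Sum.inl q₁, fun _ => 0) : (Q₁ ⊕ Q₂) × (H₁ ⊕ H₂ → ℕ))
      = e1 ((q₁, fun _ => 0) : Q₁ × (H₁ → ℕ)) := by
    unfold e1
    refine Prod.ext rfl ?_
    funext i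
    rcases i with i | i
    · rfl
    · rfl
  rw [h0]
  constructor
  · rintro ⟨hw₁, hw₂⟩
    have hn := (hK₁ w).1 hw₁
    obtain ⟨m, hm⟩ := (hK₂ w).1 hw₂
    classical
    obtain ⟨n, hn1, hn2⟩ : ∃ n, ((sth δ₁ w)^[n] (q₁, fun _ => 0)).1 ∈ acc₁ ∧
        ∀ m < n, ((sth δ₁ w)^[m] (q₁, fun _ => 0)).1 ∉ acc₁ :=
      ⟨Nat.find hn, Nat.find_spec hn, fun m hm => Nat.find_min hn hm⟩
    refine ⟨m + (n + 1), ?_⟩
    rw [Function.iterate_add_apply, Function.iterate_succ_apply',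
      itA δ₁ δ₂ acc₁ q₂ w _ n hn2, stB δ₁ δ₂ acc₁ q₂ w _ hn1, itC]
    exact ⟨_, hm, rfl⟩
  · rintro ⟨n, hn⟩
    rcases inv δ₁ δ₂ acc₁ q₂ w (q₁, fun _ => 0) n with h | ⟨m, k, p, hm, h⟩
    · rw [h] at hn
      obtain ⟨x, _, hx⟩ := hn
      cases hx
    · rw [h] at hn
      obtain ⟨x, hx1, hx2⟩ := hn
      have hx3 : x = ((sth δ₂ w)^[k] (q₂, fun _ => 0)).1 := Sum.inr.inj hx2
      exact ⟨(hK₁ w).2 ⟨m, hm⟩, (hK₂ w).2 ⟨k, hx3 ▸ hx1⟩⟩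

end Pool.Agent.Helper47.DI
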